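import Mathlib

/-!
# The divisor bound
-/

open Finset

namespace Pool.Agent.Lib.MP_391708_nt.Div

lemma succ_le_two_pow (v : ℕ) : ((v : ℝ) + 1) ≤ 2 ^ v := by
  have := Nat.lt_two_pow_self (n := v)
  have h : (v + 1 : ℕ) ≤ 2 ^ v := this
  exact_mod_cast h

/-- The number of divisors is `O(n ^ d)` for every `d > 0`. -/
theorem card_divisors_le_rpow (d : ℝ) (hd : 0 < d) :
    ∃ C : ℝ, 0 < C ∧ ∀ n : ℕ, 0 < n → (n.divisors.card : ℝ) ≤ C * (n : ℝ) ^ d := by
  set L : ℝ := d * Real.log 2 with hL
  have hLpos : 0 < L := mul_pos hd (Real.log_pos (by norm_num))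
  set A : ℝ := max 1 (1 / L) with hA
  have hA1 : 1 ≤ A := le_max_left _ _
  have hA0 : 0 < A := by linarith
  set P : ℕ := ⌈(2 : ℝ) ^ (1 / d)⌉₊ with hP
  refine ⟨A ^ P, by positivity, ?_⟩
  intro n hn
  have key : ∀ p ∈ n.primeFactors, ((n.factorization p : ℝ) + 1) ≤
      (if p < P then A else 1) * ((p : ℝ) ^ (n.factorization p)) ^ d := by
    intro p hp
    have hpp : p.Prime := Nat.prime_of_mem_primeFactors hp
    have hp2 : (2 : ℝ) ≤ p := by exact_mod_cast hpp.two_le
    set v := n.factorization p with hv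
    have e1 : ((p : ℝ) ^ v) ^ d = ((p : ℝ) ^ d) ^ v := by
      rw [← Real.rpow_natCast, ← Real.rpow_mul (by positivity), mul_comm, Real.rpow_mul (by positivity),
        Real.rpow_natCast]
    rw [e1]
    by_cases h : p < P
    · rw [if_pos h]
      have h1 : (2 : ℝ) ^ d ≤ (p : ℝ) ^ d := Real.rpow_le_rpow (by norm_num) hp2 hd.le
      have h2 : ((2 : ℝ) ^ d) ^ v ≤ ((p : ℝ) ^ d) ^ v := pow_le_pow_left₀ (by positivity) h1 v
      have h3 : ((2 : ℝ) ^ d) ^ v = Real.exp (v * L) := by
        rw [Real.rpow_def_of_pos (by norm_num : (0 : ℝ) < 2), ← Real.exp_nat_mul]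
        congr 1
        rw [hL]
        ring
      have h4 : 1 + v * L ≤ Real.exp (v * L) := by
        have := Real.add_one_le_exp ((v : ℝ) * L)
        linarith
      have h5 : (v : ℝ) + 1 ≤ A * (1 + v * L) := by
        have a1 : 1 / L ≤ A := le_max_right _ _
        have a2 : 1 ≤ A * L := by
          rw [div_le_iff₀ hLpos] at a1
          exact a1
        have hv0 : (0 : ℝ) ≤ v := by positivity
        nlinarith
      calc (v : ℝ) + 1 ≤ A * (1 + v * L) := h5
        _ ≤ A * Real.exp (v * L) := by gcongr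
        _ = A * ((2 : ℝ) ^ d) ^ v := by rw [h3]
        _ ≤ A * ((p : ℝ) ^ d) ^ v := by gcongr
    · rw [if_neg h, one_mul]
      have h1 : (2 : ℝ) ≤ (p : ℝ) ^ d := by
        have hPp : (P : ℝ) ≤ p := by exact_mod_cast (not_lt.1 h)
        have h2 : (2 : ℝ) ^ (1 / d) ≤ p := (Nat.le_ceil _).trans hPp
        have h3 : ((2 : ℝ) ^ (1 / d)) ^ d ≤ (p : ℝ) ^ d := Real.rpow_le_rpow (by positivity) h2 hd.le
        rw [← Real.rpow_mul (by norm_num), one_div_mul_cancel hd.ne', Real.rpow_one] at h3
        exact h3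
      exact (succ_le_two_pow v).trans (pow_le_pow_left₀ (by norm_num) h1 v)
  have hn' : (n : ℝ) ^ d = ∏ p ∈ n.primeFactors, ((p : ℝ) ^ (n.factorization p)) ^ d := by
    rw [Real.finsetProd_rpow _ _ (fun i _ => by positivity)]
    congr 1
    have := Nat.prod_factorization_pow_eq_self hn.ne'
    conv_lhs => rw [← this]
    rw [Finsupp.prod, Nat.support_factorization]
    push_cast
    rfl
  rw [Nat.card_divisors hn.ne']
  push_cast
  calc ∏ p ∈ n.primeFactors, ((n.factorization p : ℝ) + 1)
      ≤ ∏ p ∈ n.primeFactors, ((if p < P then A else 1) * ((p : ℝ) ^ (n.factorization p)) ^ d) :=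
        Finset.prod_le_prod (fun i _ => by positivity) key
    _ = (∏ p ∈ n.primeFactors, (if p < P then A else 1)) * (n : ℝ) ^ d := by
        rw [Finset.prod_mul_distrib, hn']
    _ ≤ A ^ P * (n : ℝ) ^ d := by
        gcongr
        rw [Finset.prod_ite, Finset.prod_const, Finset.prod_const_one, mul_one]
        refine pow_le_pow_right₀ hA1 ?_
        calc (n.primeFactors.filter (fun p => p < P)).card ≤ (Finset.range P).card := by
              refine Finset.card_le_card fun p hp => ?_
              exact Finset.mem_range.2 (Finset.mem_filter.1 hp).2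
          _ = P := Finset.card_range P

end Pool.Agent.Lib.MP_391708_nt.Div
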