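import Mathlib

set_option autoImplicit false

/-!
# The lattice `ℤ[√-a]` and the path lemma
-/

namespace Pool.Agent.Lib.MP391708

/-- the norm form `x² + a y²` -/
def nf (a : ℕ) (v : ℤ × ℤ) : ℤ := v.1 ^ 2 + a * v.2 ^ 2

/-- the bilinear form of the norm form -/
def bf (a : ℕ) (v w : ℤ × ℤ) : ℤ := v.1 * w.1 + a * v.2 * w.2

/-- the determinant -/
def dt (v w : ℤ × ℤ) : ℤ := v.1 * w.2 - v.2 * w.1

/-- multiplication in `ℤ[√-a]` -/
def ml (a : ℕ) (v w : ℤ × ℤ) : ℤ × ℤ := (v.1 * w.1 - a * v.2 * w.2, v.1 * w.2 + v.2 * w.1)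

lemma nf_ml (a : ℕ) (v w : ℤ × ℤ) : nf a (ml a v w) = nf a v * nf a w := by
  simp only [nf, ml]; ring

lemma brahmagupta (a : ℕ) (v w : ℤ × ℤ) :
    nf a v * nf a w = bf a v w ^ 2 + a * dt v w ^ 2 := by
  simp only [nf, bf, dt]; ring

lemma nf_nonneg (a : ℕ) (v : ℤ × ℤ) : 0 ≤ nf a v := by
  unfold nf; positivity

lemma nf_pos {a : ℕ} (ha : 0 < a) {v : ℤ × ℤ} (hv : v ≠ 0) : 0 < nf a v := by
  have h0 := nf_nonneg a v
  rcases h0.lt_or_eq with h | h
  · exact h
  exfalso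
  apply hv
  unfold nf at h
  have ha' : (0 : ℤ) < a := by exact_mod_cast ha
  have h1 : v.1 ^ 2 = 0 := by nlinarith [sq_nonneg v.1, sq_nonneg v.2]
  have h2 : (a : ℤ) * v.2 ^ 2 = 0 := by nlinarith [sq_nonneg v.1, sq_nonneg v.2]
  have h3 : v.1 = 0 := by simpa using h1
  have h4 : v.2 = 0 := by
    rcases mul_eq_zero.1 h2 with h | h
    · omega
    · simpa using h
  exact Prod.ext h3 h4

/-- completely multiplicative functions with values `±1` -/
structure IsSign (g : ℕ → ℤ) : Prop where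
  val : ∀ n, 0 < n → g n = 1 ∨ g n = -1
  mul : ∀ m n, 0 < m → 0 < n → g (m * n) = g m * g n

lemma IsSign.sq {g : ℕ → ℤ} (hg : IsSign g) {n : ℕ} (hn : 0 < n) : g n * g n = 1 := by
  rcases hg.val n hn with h | h <;> rw [h] <;> norm_num

/-- the induced sign on `ℤ[√-a]` -/
def sg (a : ℕ) (g : ℕ → ℤ) (v : ℤ × ℤ) : ℤ := g (nf a v).natAbs

lemma natAbs_pos_of_pos {x : ℤ} (h : 0 < x) : 0 < x.natAbs := Int.natAbs_pos.2 h.ne'

section
variable {a : ℕ} (ha : 0 < a) {g : ℕ → ℤ} (hg : IsSign g)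

include ha in
lemma ml_ne_zero {v w : ℤ × ℤ} (hv : v ≠ 0) (hw : w ≠ 0) : ml a v w ≠ 0 := by
  intro h
  have h1 := nf_ml a v w
  rw [h] at h1
  have h2 := mul_pos (nf_pos ha hv) (nf_pos ha hw)
  rw [← h1] at h2
  simp [nf] at h2

include ha hg

lemma sg_val {v : ℤ × ℤ} (hv : v ≠ 0) : sg a g v = 1 ∨ sg a g v = -1 :=
  hg.val _ (natAbs_pos_of_pos (nf_pos ha hv))

lemma sg_ml {v w : ℤ × ℤ} (hv : v ≠ 0) (hw : w ≠ 0) :
    sg a g (ml a v w) = sg a g v * sg a g w := by
  unfold sg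
  rw [nf_ml, Int.natAbs_mul]
  exact hg.mul _ _ (natAbs_pos_of_pos (nf_pos ha hv)) (natAbs_pos_of_pos (nf_pos ha hw))

/-- the sign along an edge -/
lemma sg_edge {v w : ℤ × ℤ} (h : dt v w = 1 ∨ dt v w = -1) :
    sg a g v * sg a g w = g ((bf a v w ^ 2 + a).natAbs) := by
  have h1 : dt v w ^ 2 = 1 := by rcases h with h | h <;> rw [h] <;> norm_num
  have hv : v ≠ 0 := by
    rintro rfl; simp [dt] at h
  have hw : w ≠ 0 := by
    rintro rfl; simp [dt] at h
  have h2 := brahmagupta a v w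
  rw [h1, mul_one] at h2
  unfold sg
  rw [← hg.mul _ _ (natAbs_pos_of_pos (nf_pos ha hv)) (natAbs_pos_of_pos (nf_pos ha hw)),
    ← Int.natAbs_mul, h2]

lemma sg_parallel {v w : ℤ × ℤ} (hv : IsCoprime v.1 v.2) (hw : w ≠ 0) (h : dt v w = 0) :
    sg a g v = sg a g w := by
  obtain ⟨s, t, hst⟩ := hv
  set k := s * w.1 + t * w.2 with hk
  unfold dt at h
  have h1 : w.1 = k * v.1 := by
    have : w.1 = w.1 * (s * v.1 + t * v.2) := by rw [hst, mul_one]
    rw [this, hk]; linear_combination (t) * (-h)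
  have h2 : w.2 = k * v.2 := by
    have : w.2 = w.2 * (s * v.1 + t * v.2) := by rw [hst, mul_one]
    rw [this, hk]; linear_combination (s) * h
  have hk0 : k ≠ 0 := by
    intro h0
    apply hw
    rw [h0, zero_mul] at h1 h2
    exact Prod.ext h1 h2
  have hv0 : v ≠ 0 := by
    rintro rfl; simp at hst
  have h3 : nf a w = (k * k) * nf a v := by
    unfold nf; rw [h1, h2]; ring
  unfold sg
  rw [h3, Int.natAbs_mul, Int.natAbs_mul]
  have hkp : 0 < k.natAbs := Int.natAbs_pos.2 hk0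
  rw [hg.mul _ _ (Nat.mul_pos hkp hkp) (natAbs_pos_of_pos (nf_pos ha hv0)),
    hg.mul _ _ hkp hkp, hg.sq hkp, one_mul]

end

/-- a bad edge -/
def BadEdge (a : ℕ) (g : ℕ → ℤ) (R : ℤ) (X Y : ℤ × ℤ) : Prop :=
  (dt X Y = 1 ∨ dt X Y = -1) ∧ g ((bf a X Y ^ 2 + a).natAbs) = -1 ∧ nf a X ≤ R ∧ nf a Y ≤ R

lemma bf_abs_le {a : ℕ} {R : ℤ} {v w : ℤ × ℤ} (hv : nf a v ≤ R) (hw : nf a w ≤ R) :
    |bf a v w| ≤ R := by
  have h0 := nf_nonneg a v
  have hR : 0 ≤ R := le_trans h0 hv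
  apply abs_le_of_sq_le_sq _ hR
  have h1 := brahmagupta a v w
  have h2 : 0 ≤ (a : ℤ) * dt v w ^ 2 := by positivity
  have h3 : nf a v * nf a w ≤ R * R := mul_le_mul hv hw (nf_nonneg a w) hR
  nlinarith

lemma exists_balanced (c D : ℤ) (hD : D ≠ 0) : ∃ k e : ℤ, c = k * D + e ∧ 2 * |e| ≤ |D| := by
  refine ⟨(c + |D| / 2) / D, (c + |D| / 2) % D - |D| / 2, ?_, ?_⟩
  · have := Int.mul_ediv_add_emod (c + |D| / 2) D
    linarith
  · have h1 := Int.emod_nonneg (c + |D| / 2) hD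
    have h2 := Int.emod_lt_abs (c + |D| / 2) hD
    set m := (c + |D| / 2) % D
    set h := |D|
    have h3 : 2 * (h / 2) ≤ h := by omega
    have h4 : h ≤ 2 * (h / 2) + 1 := by omega
    rcases abs_cases (m - h / 2) with ⟨h5, _⟩ | ⟨h5, _⟩ <;> rw [h5] <;> omega

/-- the path lemma -/
theorem path_lemma {a : ℕ} (ha : 0 < a) {g : ℕ → ℤ} (hg : IsSign g) (R : ℤ) :
    ∀ n : ℕ, ∀ V V' : ℤ × ℤ, IsCoprime V.1 V.2 → V' ≠ 0 → (dt V V').natAbs = n →
      nf a V ≤ R → nf a V' ≤ R → sg a g V = sg a g V' ∨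
      ∃ X Y : ℤ × ℤ, BadEdge a g R X Y ∧ ∃ p q p' q' : ℤ,
        V = (p * X.1 + q * Y.1, p * X.2 + q * Y.2) ∧
        V' = (p' * X.1 + q' * Y.1, p' * X.2 + q' * Y.2) ∧
        |p| ≤ 2 * n - 1 ∧ |q| ≤ 2 * n - 1 ∧ |p'| ≤ n ∧ |q'| ≤ n := by
  intro n
  induction n using Nat.strong_induction_on with
  | _ n ih =>
  intro V V' hV hV' hdet hR hR'
  have hV0 : V ≠ 0 := by
    rintro rfl
    obtain ⟨s, t, h⟩ := hV
    simp at h
  -- parallel case
  rcases Nat.eq_zero_or_pos n with hn | hn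
  · left
    apply sg_parallel ha hg hV hV'
    rw [hn] at hdet
    exact Int.natAbs_eq_zero.1 hdet
  have habs : |dt V V'| = (n : ℤ) := by rw [Int.abs_eq_natAbs, hdet]
  rcases Nat.lt_or_ge 1 n with hn2 | hn1
  swap
  · -- an edge
    have hn1' : n = 1 := le_antisymm hn1 hn
    have hedge : dt V V' = 1 ∨ dt V V' = -1 := by
      rw [hn1'] at hdet
      exact Int.natAbs_eq_iff.1 hdet
    have hG := sg_edge ha hg hedge
    rcases sg_val ha hg hV0 with h1 | h1 <;> rcases sg_val ha hg hV' with h2 | h2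
    · left; rw [h1, h2]
    · right
      refine ⟨V, V', ⟨hedge, ?_, hR, hR'⟩, 1, 0, 0, 1, ?_, ?_, ?_, ?_, ?_, ?_⟩
      · rw [← hG, h1, h2]; norm_num
      all_goals first | (rw [hn1']; norm_num) | (apply Prod.ext <;> simp)
    · right
      refine ⟨V, V', ⟨hedge, ?_, hR, hR'⟩, 1, 0, 0, 1, ?_, ?_, ?_, ?_, ?_, ?_⟩
      · rw [← hG, h1, h2]; norm_num
      all_goals first | (rw [hn1']; norm_num) | (apply Prod.ext <;> simp)
    · left; rw [h1, h2]
  -- general case
  obtain ⟨s, t, hst⟩ := hV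
  set D := dt V V' with hD
  have hD0 : D ≠ 0 := by
    intro h
    rw [h] at habs
    simp at habs
    omega
  set c := V'.1 * s + V'.2 * t with hc
  obtain ⟨k, e, hke, he⟩ := exists_balanced c D hD0
  -- the neighbour `W`
  set W : ℤ × ℤ := (-t + k * V.1, s + k * V.2) with hW
  have hVW : dt V W = 1 := by
    simp only [dt, hW]; linear_combination hst
  have hV'1 : V'.1 = e * V.1 + D * W.1 := by
    have h1 : V'.1 = c * V.1 + D * (-t) := by
      simp only [hc, hD, dt]; linear_combination (-V'.1) * hst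
    simp only [hW]
    rw [h1, hke]; ring
  have hV'2 : V'.2 = e * V.2 + D * W.2 := by
    have h1 : V'.2 = c * V.2 + D * s := by
      simp only [hc, hD, dt]; linear_combination (-V'.2) * hst
    simp only [hW]
    rw [h1, hke]; ring
  have hWcop : IsCoprime W.1 W.2 := by
    refine ⟨-V.2, V.1, ?_⟩
    unfold dt at hVW
    linarith
  have hW0 : W ≠ 0 := by
    intro h
    rw [h] at hVW
    simp [dt] at hVW
  have hdWV' : dt W V' = -e := by
    unfold dt at hVW ⊢
    rw [hV'1, hV'2]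
    linear_combination (-e) * hVW
  have hn' : (2 : ℤ) ≤ n := by exact_mod_cast hn2
  have he' : 2 * |e| ≤ n := by rw [← habs]; exact he
  have hWR : nf a W ≤ R := by
    have hb := bf_abs_le hR hR'
    have h0 := nf_nonneg a V
    have hR0 : 0 ≤ R := le_trans h0 hR
    have h1 : D ^ 2 * nf a W = nf a V' - 2 * e * bf a V V' + e ^ 2 * nf a V := by
      unfold nf bf
      rw [hV'1, hV'2]; ring
    have h2 : D ^ 2 = (n : ℤ) ^ 2 := by rw [← habs, sq_abs]
    have h3 : -(2 * e * bf a V V') ≤ 2 * |e| * R := by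
      have h4 : |2 * e * bf a V V'| ≤ 2 * |e| * R := by
        rw [abs_mul, abs_mul, abs_two]
        exact mul_le_mul_of_nonneg_left hb (by positivity)
      linarith [neg_abs_le (2 * e * bf a V V')]
    have h5 : e ^ 2 * nf a V ≤ |e| ^ 2 * R := by
      rw [sq_abs]; exact mul_le_mul_of_nonneg_left hR (sq_nonneg e)
    have h6 : (n : ℤ) ^ 2 * nf a W ≤ (1 + |e|) ^ 2 * R := by
      rw [← h2, h1]; nlinarith
    have h7 : (1 + |e|) ^ 2 ≤ (n : ℤ) ^ 2 := by
      have : 0 ≤ |e| := abs_nonneg e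
      apply pow_le_pow_left₀ (by positivity)
      omega
    have h8 : (n : ℤ) ^ 2 * nf a W ≤ (n : ℤ) ^ 2 * R :=
      h6.trans (mul_le_mul_of_nonneg_right h7 hR0)
    exact le_of_mul_le_mul_left h8 (by positivity)
  have hedge : dt V W = 1 ∨ dt V W = -1 := Or.inl hVW
  have hG := sg_edge ha hg hedge
  -- the case of a bad edge `V W`
  have hbadcase : g ((bf a V W ^ 2 + a).natAbs) = -1 →
      ∃ X Y : ℤ × ℤ, BadEdge a g R X Y ∧ ∃ p q p' q' : ℤ,
        V = (p * X.1 + q * Y.1, p * X.2 + q * Y.2) ∧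
        V' = (p' * X.1 + q' * Y.1, p' * X.2 + q' * Y.2) ∧
        |p| ≤ 2 * n - 1 ∧ |q| ≤ 2 * n - 1 ∧ |p'| ≤ n ∧ |q'| ≤ n := by
    intro hb
    refine ⟨V, W, ⟨hedge, hb, hR, hWR⟩, 1, 0, e, D, ?_, ?_, ?_, ?_, ?_, ?_⟩
    · apply Prod.ext <;> simp
    · exact Prod.ext hV'1 hV'2
    · rw [abs_one]; omega
    · rw [abs_zero]; omega
    · have := abs_nonneg e; omega
    · exact habs.le
  have hWval := sg_val ha hg hW0
  have hVval := sg_val ha hg hV0
  by_cases hVWeq : sg a g V = sg a g W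
  swap
  · right
    apply hbadcase
    rw [← hG]
    rcases hVval with h1 | h1 <;> rcases hWval with h2 | h2 <;> rw [h1, h2] at hVWeq ⊢ <;>
      first | exact absurd rfl hVWeq | norm_num
  -- induction
  have hlt : e.natAbs < n := by
    have h1 : (e.natAbs : ℤ) = |e| := (Int.abs_eq_natAbs e).symm
    have h2 : 0 ≤ |e| := abs_nonneg e
    zify
    omega
  rcases ih e.natAbs hlt W V' hWcop hV' (by rw [hdWV', Int.natAbs_neg]) hWR hR' with h | h
  · left; rw [hVWeq, h]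
  · right
    obtain ⟨X, Y, hbad, p, q, p', q', hWe, hV'e, hp, hq, hp', hq'⟩ := h
    have hea : (e.natAbs : ℤ) = |e| := (Int.abs_eq_natAbs e).symm
    rw [hea] at hp hq hp' hq'
    have he0 : 1 ≤ |e| := by
      have := abs_nonneg p; omega
    have hene : e ≠ 0 := by
      intro h; rw [h] at he0; simp at he0
    -- coefficients of `V` in the basis `X, Y`
    set δ := dt X Y with hδ
    have hδ2 : δ * δ = 1 := by
      rcases hbad.1 with h | h <;> rw [hδ, h] <;> norm_num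
    set P := δ * dt V Y with hP
    set Q := δ * dt X V with hQ
    have hVe : V = (P * X.1 + Q * Y.1, P * X.2 + Q * Y.2) := by
      have e1 : dt V Y * X.1 + dt X V * Y.1 = dt X Y * V.1 := by simp only [dt]; ring
      have e2 : dt V Y * X.2 + dt X V * Y.2 = dt X Y * V.2 := by simp only [dt]; ring
      apply Prod.ext
      · change V.1 = P * X.1 + Q * Y.1
        rw [hP, hQ]
        have : δ * dt V Y * X.1 + δ * dt X V * Y.1 = δ * (dt V Y * X.1 + dt X V * Y.1) := by ring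
        rw [this, e1, ← hδ, ← mul_assoc, hδ2, one_mul]
      · change V.2 = P * X.2 + Q * Y.2
        rw [hP, hQ]
        have : δ * dt V Y * X.2 + δ * dt X V * Y.2 = δ * (dt V Y * X.2 + dt X V * Y.2) := by ring
        rw [this, e2, ← hδ, ← mul_assoc, hδ2, one_mul]
    have hW1 : W.1 = p * X.1 + q * Y.1 := by rw [hWe]
    have hW2 : W.2 = p * X.2 + q * Y.2 := by rw [hWe]
    have hV1 : V'.1 = p' * X.1 + q' * Y.1 := by rw [hV'e]
    have hV2 : V'.2 = p' * X.2 + q' * Y.2 := by rw [hV'e]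
    have heV1 : e * V.1 = (p' - D * p) * X.1 + (q' - D * q) * Y.1 := by
      have : e * V.1 = V'.1 - D * W.1 := by rw [hV'1]; ring
      rw [this, hV1, hW1]; ring
    have heV2 : e * V.2 = (p' - D * p) * X.2 + (q' - D * q) * Y.2 := by
      have : e * V.2 = V'.2 - D * W.2 := by rw [hV'2]; ring
      rw [this, hV2, hW2]; ring
    have heP : e * P = p' - D * p := by
      have : e * P = δ * ((e * V.1) * Y.2 - (e * V.2) * Y.1) := by
        rw [hP]; simp only [dt]; ring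
      rw [this, heV1, heV2]
      have : δ * (((p' - D * p) * X.1 + (q' - D * q) * Y.1) * Y.2 -
          ((p' - D * p) * X.2 + (q' - D * q) * Y.2) * Y.1) = (p' - D * p) * (δ * dt X Y) := by
        simp only [dt]; ring
      rw [this, ← hδ, hδ2, mul_one]
    have heQ : e * Q = q' - D * q := by
      have : e * Q = δ * (X.1 * (e * V.2) - X.2 * (e * V.1)) := by
        rw [hQ]; simp only [dt]; ring
      rw [this, heV1, heV2]
      have : δ * (X.1 * ((p' - D * p) * X.2 + (q' - D * q) * Y.2) -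
          X.2 * ((p' - D * p) * X.1 + (q' - D * q) * Y.1)) = (q' - D * q) * (δ * dt X Y) := by
        simp only [dt]; ring
      rw [this, ← hδ, hδ2, mul_one]
    have key : ∀ x y z : ℤ, |y| ≤ |e| → |z| ≤ 2 * |e| - 1 → e * x = y - D * z →
        |x| ≤ 2 * n - 1 := by
      intro x y z hy hz hx
      have h1 : |e| * |x| ≤ |e| + n * (2 * |e| - 1) := by
        rw [← abs_mul, hx]
        calc |y - D * z| ≤ |y| + |D * z| := abs_sub _ _
          _ = |y| + |D| * |z| := by rw [abs_mul]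
          _ ≤ |e| + n * (2 * |e| - 1) := by
              rw [habs]
              have : (n : ℤ) * |z| ≤ n * (2 * |e| - 1) :=
                mul_le_mul_of_nonneg_left hz (by positivity)
              linarith
      have h2 : |e| * |x| ≤ |e| * (2 * n - 1) := by
        have h3 : (n : ℤ) * (2 * |e| - 1) = 2 * (|e| * n) - n := by ring
        have h4 : |e| * (2 * (n : ℤ) - 1) = 2 * (|e| * n) - |e| := by ring
        rw [h4]; rw [h3] at h1
        linarith
      exact le_of_mul_le_mul_left h2 (by omega)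
    refine ⟨X, Y, hbad, P, Q, p', q', hVe, hV'e, key P p' p hp' hp heP, key Q q' q hq' hq heQ,
      ?_, ?_⟩ <;> omega

end Pool.Agent.Lib.MP391708
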